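import Mathlib
import Pool.Agent.H42.GamM

open Cardinal TopologicalSpace

/-- Under CH there is a Tychonoff space `X` such that `C_p(X)` is separable and Fréchet-Urysohn
but has a non-separable subspace. -/
theorem Pool.Agent.Results.MP_dfc365_gt.Cons.result (hCH : (𝔠 : Cardinal.{0}) = ℵ₁) :
    ∃ (X : Type) (_ : TopologicalSpace X), T35Space X ∧
      SeparableSpace {f : X → ℝ // Continuous f} ∧
      FrechetUrysohnSpace {f : X → ℝ // Continuous f} ∧
      ∃ D : Set {f : X → ℝ // Continuous f}, ¬ SeparableSpace D :=
  Pool.Agent.H42.GamM.main hCH
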